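import Pool.Agent.R957.BRW.Tools

/-!
# A branching random walk with countably many extinction probability vectors

The points are the pairs `(i, k)`: the `k`-th point of the `i`-th ray. A particle at `(i, k)` has a
child at `(i, k + 1)`, a child at the start `(i + k + 1, 0)` of a new ray and, with probability
`4 ^ (-(i + k)) / 4`, a third child at `(0, 0)`.
-/

open Filter Topology Set MeasureTheory ProbabilityTheory
open scoped ENNReal NNReal

set_option linter.deprecated false
set_option linter.unusedSectionVars false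

namespace Pool.Agent.J4H74.BRW

open Pool.Agent.H632R3.Branch Pool.Agent.R957.BRW

noncomputable section

/-- The weight of a point. -/
def wt (x : ℕ × ℕ) : ℝ≥0 := (1 / 4) ^ (x.1 + x.2)

theorem wt_pos (x : ℕ × ℕ) : 0 < wt x := by unfold wt; positivity

theorem wt_le_one (x : ℕ × ℕ) : wt x ≤ 1 := by
  unfold wt
  refine pow_le_one₀ (by positivity) ?_
  rw [div_le_one (by norm_num)]
  norm_num

theorem wt_succ (i k : ℕ) : wt (i, k + 1) = wt (i, k) / 4 := by
  unfold wt
  rw [← add_assoc, pow_succ]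
  ring

theorem wt_new (i k : ℕ) : wt (i + k + 1, 0) = wt (i, k) / 4 := by
  unfold wt
  simp only [add_zero]
  rw [pow_succ]
  ring

theorem wt_zero : wt (0, 0) = 1 := by simp [wt]

theorem eps_le (x : ℕ × ℕ) : wt x / 4 ≤ 1 := by
  have h := wt_le_one x
  rw [div_le_iff₀ (by norm_num)]
  exact h.trans (by norm_num)

/-- The two possible offspring vectors of a particle at `x`. -/
def off (x : ℕ × ℕ) (b : Bool) : ℕ × ℕ →₀ ℕ :=
  Finsupp.single (x.1, x.2 + 1) 1 + Finsupp.single (x.1 + x.2 + 1, 0) 1 +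
    Finsupp.single (0, 0) (if b then 1 else 0)

/-- The offspring laws of the example. -/
def exLaw (x : ℕ × ℕ) : PMF (ℕ × ℕ →₀ ℕ) := (PMF.bernoulli (wt x / 4) (eps_le x)).map (off x)

theorem mon_off_false (s : ℕ × ℕ → ℝ) (i k : ℕ) :
    mon s (off (i, k) false) = s (i, k + 1) * s (i + k + 1, 0) := by
  simp only [off, mon_add, mon_single, Bool.false_eq_true, if_false, Finsupp.single_zero, mon_zero,
    mul_one]

theorem mon_off_true (s : ℕ × ℕ → ℝ) (i k : ℕ) :
    mon s (off (i, k) true) = s (i, k + 1) * s (i + k + 1, 0) * s (0, 0) := by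
  simp only [off, mon_add, mon_single, if_true]

theorem gen_ex (s : ℕ × ℕ → ℝ) (i k : ℕ) :
    gen exLaw s (i, k) =
      s (i, k + 1) * s (i + k + 1, 0) * (1 - (wt (i, k) : ℝ) / 4 * (1 - s (0, 0))) := by
  have h1 : ((PMF.bernoulli (wt (i, k) / 4) (eps_le (i, k))) true).toReal = (wt (i, k) : ℝ) / 4 := by
    rw [PMF.bernoulli_apply]
    simp
  have h2 : ((PMF.bernoulli (wt (i, k) / 4) (eps_le (i, k))) false).toReal =
      1 - (wt (i, k) : ℝ) / 4 := by
    rw [PMF.bernoulli_apply]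
    simp only [cond_false]
    rw [ENNReal.coe_toReal, NNReal.coe_sub (eps_le (i, k))]
    simp
  rw [gen_two exLaw (i, k) _ _ rfl s, h1, h2, mon_off_false, mon_off_true]
  ring

theorem gen_ex_ge {s : ℕ × ℕ → ℝ} (hs : Box s) (i k : ℕ) :
    1 - (1 - s (i, k + 1)) - (1 - s (i + k + 1, 0)) - (wt (i, k) : ℝ) / 4 * (1 - s (0, 0)) ≤
      gen exLaw s (i, k) := by
  rw [gen_ex]
  have ha := hs (i, k + 1)
  have hb := hs (i + k + 1, 0)
  have hc := hs (0, 0)
  have hw : (wt (i, k) : ℝ) ≤ 1 := wt_le_one _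
  have hw0 : (0 : ℝ) ≤ wt (i, k) := (wt (i, k)).2
  set a := s (i, k + 1)
  set b := s (i + k + 1, 0)
  set e := (wt (i, k) : ℝ) / 4 * (1 - s (0, 0))
  have he0 : 0 ≤ e := mul_nonneg (by linarith) (by linarith [hc.2])
  have he1 : e ≤ 1 := by
    have : e ≤ 1 / 4 * 1 := mul_le_mul (by linarith) (by linarith [hc.1]) (by linarith [hc.2])
      (by norm_num)
    linarith
  have h1 : 1 - (1 - a) - (1 - b) ≤ a * b := by nlinarith [ha.1, ha.2, hb.1, hb.2]
  have h2 : a * b ≤ 1 := mul_le_one₀ ha.2 hb.1 hb.2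
  have h3 : 0 ≤ a * b := mul_nonneg ha.1 hb.1
  nlinarith

theorem exLaw_ne (x : ℕ × ℕ) (f : ℕ × ℕ →₀ ℕ) (h : exLaw x f ≠ 0) : ∃ b, f = off x b := by
  have h1 : f ∈ (exLaw x).support := h
  unfold exLaw at h1
  rw [PMF.support_map] at h1
  obtain ⟨b, _, hb⟩ := h1
  exact ⟨b, hb.symm⟩

theorem exLaw_off (x : ℕ × ℕ) (b : Bool) : exLaw x (off x b) ≠ 0 := by
  have h1 : off x b ∈ (exLaw x).support := by
    unfold exLaw
    rw [PMF.support_map]
    refine ⟨b, ?_, rfl⟩
    rw [PMF.mem_support_bernoulli_iff]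
    have hw := wt_pos x
    have hw1 := wt_le_one x
    cases b
    · simp only [cond_false]
      intro h
      have h3 : wt x / 4 ≤ 1 / 4 := by gcongr
      rw [h, le_div_iff₀ (by norm_num)] at h3
      norm_num at h3
    · simp only [cond_true]
      exact (div_pos hw (by norm_num)).ne'
  exact h1

theorem child1 (x : ℕ × ℕ) (f : ℕ × ℕ →₀ ℕ) (h : exLaw x f ≠ 0) : f (x.1, x.2 + 1) ≠ 0 := by
  obtain ⟨b, rfl⟩ := exLaw_ne x f h
  simp [off]

theorem child2 (x : ℕ × ℕ) (f : ℕ × ℕ →₀ ℕ) (h : exLaw x f ≠ 0) : f (x.1 + x.2 + 1, 0) ≠ 0 := by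
  obtain ⟨b, rfl⟩ := exLaw_ne x f h
  simp [off]

/-- Every particle has two or three children. -/
theorem total_children (x : ℕ × ℕ) (f : ℕ × ℕ →₀ ℕ) (h : exLaw x f ≠ 0) :
    (f.sum fun _ k => k) = 2 ∨ (f.sum fun _ k => k) = 3 := by
  classical
  obtain ⟨b, rfl⟩ := exLaw_ne x f h
  unfold off
  rw [Finsupp.sum_add_index' (fun _ => rfl) (fun _ _ _ => rfl),
    Finsupp.sum_add_index' (fun _ => rfl) (fun _ _ _ => rfl), Finsupp.sum_single_index rfl,
    Finsupp.sum_single_index rfl, Finsupp.sum_single_index rfl]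
  cases b <;> simp

theorem canHave1 (i k : ℕ) : CanHave exLaw (i, k) (i, k + 1) :=
  ⟨off (i, k) true, exLaw_off _ _, child1 (i, k) _ (exLaw_off _ _)⟩

theorem canHave2 (i k : ℕ) : CanHave exLaw (i, k) (i + k + 1, 0) :=
  ⟨off (i, k) true, exLaw_off _ _, child2 (i, k) _ (exLaw_off _ _)⟩

theorem canHave0 (x : ℕ × ℕ) : CanHave exLaw x (0, 0) :=
  ⟨off x true, exLaw_off _ _, by simp [off]⟩

theorem reach_ray (i : ℕ) (k : ℕ) : Relation.ReflTransGen (CanHave exLaw) (i, 0) (i, k) := by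
  induction k with
  | zero => exact .refl
  | succ k ih => exact ih.tail (canHave1 i k)

/-- The example is irreducible. -/
theorem irr : Irr exLaw := by
  intro x y
  have h0 : Relation.ReflTransGen (CanHave exLaw) (0, 0) y := by
    obtain ⟨m, l⟩ := y
    rcases Nat.eq_zero_or_pos m with rfl | hm
    · exact reach_ray 0 l
    · obtain ⟨n, rfl⟩ : ∃ n, m = n + 1 := ⟨m - 1, by omega⟩
      have h1 := (reach_ray 0 n).tail (canHave2 0 n)
      have h2 : (0 + n + 1, 0) = (n + 1, 0) := by simp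
      rw [h2] at h1
      exact h1.trans (reach_ray (n + 1) l)
  exact (Relation.ReflTransGen.single (canHave0 x)).trans h0

/-! ### Finite sets -/

theorem gen_lower {s : ℕ × ℕ → ℝ} (hs : Box s) (c : ℝ) (hc : 0 ≤ c)
    (h : ∀ x, 1 - c * wt x ≤ s x) (x : ℕ × ℕ) : 1 - c * (3 / 4) * wt x ≤ gen exLaw s x := by
  obtain ⟨i, k⟩ := x
  refine le_trans ?_ (gen_ex_ge hs i k)
  have h1 := h (i, k + 1)
  have h2 := h (i + k + 1, 0)
  have h3 := h (0, 0)
  rw [wt_succ] at h1
  rw [wt_new] at h2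
  rw [wt_zero] at h3
  push_cast at h1 h2 h3
  have hw0 : (0 : ℝ) ≤ wt (i, k) := (wt (i, k)).2
  nlinarith [mul_nonneg hw0 hc]

theorem iter_lower {s : ℕ × ℕ → ℝ} (hs : Box s) (c : ℝ) (hc : 0 ≤ c)
    (h : ∀ x, 1 - c * wt x ≤ s x) (n : ℕ) (x : ℕ × ℕ) :
    1 - c * (3 / 4) ^ n * wt x ≤ ((gen exLaw)^[n] s) x := by
  induction n generalizing x with
  | zero => simpa using h x
  | succ n ih =>
    rw [Function.iterate_succ_apply', pow_succ, ← mul_assoc]
    exact gen_lower (iter_gen_box exLaw n hs) _ (by positivity) ih x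

theorem finite_one {F : Set (ℕ × ℕ)} (hF : F.Finite) (x : ℕ × ℕ) : qExt exLaw F x = 1 := by
  obtain ⟨c, hc0, hc⟩ : ∃ c : ℝ, 0 ≤ c ∧ ∀ y ∈ F, 1 ≤ c * wt y := by
    refine ⟨∑ y ∈ hF.toFinset, ((wt y : ℝ))⁻¹, Finset.sum_nonneg fun y _ => by positivity, ?_⟩
    intro y hy
    have hw : (0 : ℝ) < wt y := wt_pos y
    have h1 : ((wt y : ℝ))⁻¹ ≤ ∑ y ∈ hF.toFinset, ((wt y : ℝ))⁻¹ :=
      Finset.single_le_sum (f := fun y => ((wt y : ℝ))⁻¹) (fun y _ => by positivity)
        (hF.mem_toFinset.mpr hy)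
    calc (1 : ℝ) = ((wt y : ℝ))⁻¹ * wt y := by field_simp
      _ ≤ _ := mul_le_mul_of_nonneg_right h1 hw.le
  refine qExt_eq_one exLaw F x (c * wt x) (3 / 4) (by norm_num) (by norm_num) fun n => ?_
  have h1 : ∀ y, 1 - c * wt y ≤ chiS F y := by
    intro y
    by_cases hy : y ∈ F
    · simp only [chiS, hy, if_true]
      linarith [hc y hy]
    · simp only [chiS, hy, if_false]
      have : 0 ≤ c * wt y := mul_nonneg hc0 (wt y).2
      linarith
  have h2 := iter_lower (chiS_box F) c hc0 h1 n x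
  linarith

/-! ### Rays -/

/-- The union of the rays with index in `I`. -/
def rays (I : Set ℕ) : Set (ℕ × ℕ) := {x | x.1 ∈ I}

theorem go_along {x : ℕ × ℕ} {ω : Sample (ℕ × ℕ)}
    (hω : ∀ a : ℕ × (ℕ × ℕ) × ℕ, exLaw a.2.1 (ω a) ≠ 0) {n i k : ℕ}
    (h : pop x ω n (i, k) ≠ 0) (m : ℕ) : pop x ω (n + m) (i, k + m) ≠ 0 := by
  induction m with
  | zero => exact h
  | succ m ih =>
    exact child exLaw hω (fun f hf => child1 (i, k + m) f hf) ih

theorem new_ray {x : ℕ × ℕ} {ω : Sample (ℕ × ℕ)}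
    (hω : ∀ a : ℕ × (ℕ × ℕ) × ℕ, exLaw a.2.1 (ω a) ≠ 0) {n i k : ℕ}
    (h : pop x ω n (i, k) ≠ 0) (m l : ℕ) : pop x ω (n + m + 1 + l) (i + k + m + 1, l) ≠ 0 := by
  have h1 := go_along hω h m
  have h2 : pop x ω (n + m + 1) (i + (k + m) + 1, 0) ≠ 0 :=
    child exLaw hω (fun f hf => child2 (i, k + m) f hf) h1
  have h3 := go_along hω h2 l
  rw [zero_add, ← add_assoc i k m] at h3
  exact h3

/-- Two events with the same points almost surely have the same probability. -/
theorem qExt_congr {A B : Set (ℕ × ℕ)} (x : ℕ × ℕ)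
    (h : ∀ᵐ ω ∂(law exLaw), (∀ᶠ n in atTop, ∀ y ∈ A, pop x ω n y = 0) ↔
      ∀ᶠ n in atTop, ∀ y ∈ B, pop x ω n y = 0) : qExt exLaw A x = qExt exLaw B x := by
  unfold qExt Measure.real
  congr 1
  refine measure_congr ?_
  filter_upwards [h] with ω hω
  exact propext hω

/-- A set which meets infinitely many rays. -/
theorem ext_many {A : Set (ℕ × ℕ)} (h : (Prod.fst '' A).Infinite) : qExt exLaw A = 0 := by
  funext x
  have h1 : (law exLaw) {ω | ∀ᶠ n in atTop, ∀ y ∈ A, pop x ω n y = 0} = 0 := by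
    rw [measure_eq_zero_iff_ae_notMem]
    filter_upwards [ae_supp exLaw] with ω hω hcon
    obtain ⟨N, hN⟩ := eventually_atTop.mp (show ∀ᶠ n in atTop, ∀ y ∈ A, pop x ω n y = 0 from hcon)
    obtain ⟨m, hm, hmN⟩ := h.exists_gt (x.1 + x.2 + N + 1)
    obtain ⟨y, hy, hym⟩ := hm
    obtain ⟨j, l⟩ := y
    simp only at hym
    subst hym
    have h0 : pop x ω 0 (x.1, x.2) ≠ 0 := by simp [pop]
    have h2 := new_ray hω h0 (j - (x.1 + x.2) - 1) l
    have e : x.1 + x.2 + (j - (x.1 + x.2) - 1) + 1 = j := by omega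
    rw [e] at h2
    exact h2 (hN _ (by omega) _ hy)
  unfold qExt Measure.real
  rw [h1]
  rfl

/-- A set which meets finitely many rays. -/
theorem ext_few {A : Set (ℕ × ℕ)} (h : (Prod.fst '' A).Finite) :
    qExt exLaw A = qExt exLaw (rays {i | {k | (i, k) ∈ A}.Infinite}) := by
  classical
  set I : Set ℕ := {i | {k | (i, k) ∈ A}.Infinite} with hI
  have hF : (A \ rays I).Finite := by
    have h1 : A \ rays I ⊆ ⋃ i ∈ (Prod.fst '' A) \ I, (fun k => (i, k)) '' {k | (i, k) ∈ A} := by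
      rintro ⟨i, k⟩ ⟨hA, hn⟩
      simp only [mem_iUnion]
      exact ⟨i, ⟨⟨(i, k), hA, rfl⟩, hn⟩, k, hA, rfl⟩
    refine Set.Finite.subset ?_ h1
    refine Set.Finite.biUnion (h.subset diff_subset) ?_
    rintro i ⟨_, hi⟩
    have : {k | (i, k) ∈ A}.Finite := by
      by_contra hcon
      exact hi hcon
    exact this.image _
  funext x
  refine qExt_congr x ?_
  filter_upwards [ae_supp exLaw, ae_of_qExt_one exLaw (finite_one hF x)] with ω hω hFω
  constructor
  · intro hA
    obtain ⟨N, hN⟩ := eventually_atTop.mp hA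
    refine Eventually.of_forall fun n y hy => ?_
    by_contra hcon
    obtain ⟨i, k⟩ := y
    have hi : {k | (i, k) ∈ A}.Infinite := hy
    obtain ⟨l, hl, hlN⟩ := hi.exists_gt (k + N)
    have h2 := go_along hω hcon (l - k)
    have e : k + (l - k) = l := by omega
    rw [e] at h2
    exact h2 (hN _ (by omega) _ hl)
  · intro hR
    filter_upwards [hR, hFω] with n h1 h2 y hy
    by_cases hyR : y ∈ rays I
    · exact h1 y hyR
    · exact h2 y ⟨hy, hyR⟩

theorem ext_ray_self (i : ℕ) : qExt exLaw (rays {i}) (i, 0) = 0 := by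
  have h1 : (law exLaw) {ω | ∀ᶠ n in atTop, ∀ y ∈ rays {i}, pop (i, 0) ω n y = 0} = 0 := by
    rw [measure_eq_zero_iff_ae_notMem]
    filter_upwards [ae_supp exLaw] with ω hω hcon
    obtain ⟨N, hN⟩ := eventually_atTop.mp
      (show ∀ᶠ n in atTop, ∀ y ∈ rays {i}, pop (i, 0) ω n y = 0 from hcon)
    have h0 : pop (i, 0) ω 0 (i, 0) ≠ 0 := by simp [pop]
    have h2 := go_along hω h0 N
    exact h2 (hN _ (by omega) _ rfl)
  unfold qExt Measure.real
  rw [h1]
  rfl

/-- The lower bound for the probability to avoid the ray `j` from the ray `i`. -/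
def sub (i : ℕ) (x : ℕ × ℕ) : ℝ := if i ≤ x.1 then 1 - wt x else 0

theorem sub_box (i : ℕ) : Box (sub i) := by
  intro x
  unfold sub
  have h1 : (wt x : ℝ) ≤ 1 := wt_le_one x
  have h0 : (0 : ℝ) ≤ wt x := (wt x).2
  split_ifs
  · constructor <;> linarith
  · norm_num

theorem sub_le {i j : ℕ} (hij : j < i) (x : ℕ × ℕ) :
    sub i x ≤ chiS (rays {j}) x * gen exLaw (sub i) x := by
  by_cases hx : i ≤ x.1
  · have h1 : x ∉ rays {j} := by
      intro h
      have : x.1 = j := h
      omega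
    have h2 : chiS (rays {j}) x = 1 := by simp [chiS, h1]
    rw [h2, one_mul]
    obtain ⟨a, k⟩ := x
    simp only at hx
    refine le_trans ?_ (gen_ex_ge (sub_box i) a k)
    have e1 : sub i (a, k) = 1 - wt (a, k) := by simp [sub, hx]
    have e2 : sub i (a, k + 1) = 1 - wt (a, k) / 4 := by
      have : sub i (a, k + 1) = 1 - wt (a, k + 1) := by simp [sub, hx]
      rw [this, wt_succ]; simp
    have e3 : sub i (a + k + 1, 0) = 1 - wt (a, k) / 4 := by
      have : sub i (a + k + 1, 0) = 1 - wt (a + k + 1, 0) := by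
        unfold sub
        rw [if_pos (by simp only; omega)]
      rw [this, wt_new]; simp
    have h0 := (sub_box i (0, 0)).1
    have hw0 : (0 : ℝ) ≤ wt (a, k) := (wt (a, k)).2
    rw [e1, e2, e3]
    nlinarith
  · have h1 : sub i x = 0 := by simp [sub, hx]
    rw [h1]
    exact mul_nonneg (chiS_box _ x).1 ((gen_good exLaw).box _ (sub_box i) x).1

theorem sub_le_av {i j : ℕ} (hij : j < i) (n : ℕ) : sub i ≤ av exLaw (rays {j}) n := by
  induction n with
  | zero =>
    intro x
    show sub i x ≤ chiS (rays {j}) x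
    refine (sub_le hij x).trans ?_
    exact mul_le_of_le_one_right (chiS_box _ x).1 ((gen_good exLaw).box _ (sub_box i) x).2
  | succ n ih =>
    intro x
    show sub i x ≤ chiS (rays {j}) x * gen exLaw (av exLaw (rays {j}) n) x
    refine (sub_le hij x).trans ?_
    exact mul_le_mul_of_nonneg_left
      ((gen_good exLaw).mono _ _ (sub_box i) (av_box _ _ n) ih x) (chiS_box _ x).1

theorem ext_ray_pos {i j : ℕ} (hij : j < i) : 0 < qExt exLaw (rays {j}) (i, 0) := by
  have h1 : sub i (i, 0) ≤ avInf exLaw (rays {j}) (i, 0) :=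
    ge_of_tendsto' ((tendsto_pi_nhds.mp (av_tendsto exLaw (rays {j}))) (i, 0))
      fun n => sub_le_av hij n (i, 0)
  have h2 : avInf exLaw (rays {j}) (i, 0) ≤ qExt exLaw (rays {j}) (i, 0) := by
    unfold avInf qExt
    refine measureReal_mono ?_ (measure_ne_top _ _)
    intro ω hω
    exact Eventually.of_forall fun n => hω n (Nat.zero_le n)
  have h3 : 0 < sub i (i, 0) := by
    have hi : i ≤ (i, 0).1 := le_rfl
    unfold sub
    rw [if_pos hi]
    have : (wt (i, 0) : ℝ) < 1 := by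
      have : wt (i, 0) < 1 := by
        unfold wt
        refine pow_lt_one₀ (by positivity) ?_ (by simp only; omega)
        rw [div_lt_one (by norm_num)]
        norm_num
      exact_mod_cast this
    linarith
  linarith

/-- All extinction probability vectors of the example. -/
theorem extSet_eq : extSet exLaw =
    insert 0 (range fun I : Finset ℕ => qExt exLaw (rays (I : Set ℕ))) := by
  classical
  ext z
  constructor
  · rintro ⟨A, rfl⟩
    by_cases h : (Prod.fst '' A).Finite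
    · right
      have hI : ({i | {k | (i, k) ∈ A}.Infinite} : Set ℕ).Finite := by
        refine h.subset fun i hi => ?_
        obtain ⟨k, hk⟩ := Set.Infinite.nonempty (show {k | (i, k) ∈ A}.Infinite from hi)
        exact ⟨(i, k), hk, rfl⟩
      refine ⟨hI.toFinset, ?_⟩
      show qExt exLaw (rays (hI.toFinset : Set ℕ)) = qExt exLaw A
      rw [hI.coe_toFinset]
      exact (ext_few h).symm
    · left
      exact ext_many h
  · rintro (rfl | ⟨I, rfl⟩)
    · refine ⟨univ, (ext_many ?_).symm⟩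
      rw [image_univ, Prod.range_fst]
      exact infinite_univ
    · exact ⟨_, rfl⟩

theorem extSet_countable : (extSet exLaw).Countable := by
  rw [extSet_eq]
  exact (countable_range _).insert 0

theorem extSet_infinite : (extSet exLaw).Infinite := by
  have hinj : Function.Injective fun j : ℕ => qExt exLaw (rays {j}) := by
    have key : ∀ i j : ℕ, j < i → qExt exLaw (rays {i}) ≠ qExt exLaw (rays {j}) := by
      intro i j hij h
      have h1 := ext_ray_pos hij
      rw [← h, ext_ray_self] at h1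
      exact lt_irrefl _ h1
    intro i j h
    rcases lt_trichotomy i j with h1 | h1 | h1
    · exact absurd h.symm (key j i h1)
    · exact h1
    · exact absurd h (key i j h1)
  exact infinite_of_injective_forall_mem hinj fun j => ⟨rays {j}, rfl⟩

end

end Pool.Agent.J4H74.BRW
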